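import Mathlib

/-!
# Cycles on a variety over a number field, and on its products with projective lines
-/

set_option autoImplicit false

universe u

namespace Pool.Agent.H844.Mid

/-- The subspaces `f` moved up by one degree. -/
def shift {C : Type u} [AddCommGroup C] [Module ℚ C] (f : ℕ → Submodule ℚ C) :
    ℕ → Submodule ℚ C
  | 0 => ⊥
  | i + 1 => f i

/-- The ring `C[h] / (h ^ 2)` of the elements `x + y h` (dual numbers). -/
def Dual (C : Type u) [CommRing C] : Type u := DualNumber C

noncomputable instance instRingDual (C : Type u) [CommRing C] : CommRing (Dual C) :=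
  inferInstanceAs (CommRing (DualNumber C))

noncomputable instance instAlgDual (C : Type u) [CommRing C] [Algebra ℚ C] :
    Algebra ℚ (Dual C) :=
  inferInstanceAs (Algebra ℚ (DualNumber C))

/-- The coefficient `x` of `x + y h`. -/
def Dual.fst {C : Type u} [CommRing C] (z : Dual C) : C := TrivSqZeroExt.fst (R := C) (M := C) z

/-- The coefficient `y` of `x + y h`. -/
def Dual.snd {C : Type u} [CommRing C] (z : Dual C) : C := TrivSqZeroExt.snd (R := C) (M := C) z

/-- The elements `x + y h` with `x` in `A` and `y` in `B`. -/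
def Dual.sub {C : Type u} [CommRing C] [Algebra ℚ C] (A B : Submodule ℚ C) :
    Submodule ℚ (Dual C) where
  carrier := {z | z.fst ∈ A ∧ z.snd ∈ B}
  zero_mem' := ⟨zero_mem A, zero_mem B⟩
  add_mem' h h' := ⟨add_mem h.1 h'.1, add_mem h.2 h'.2⟩
  smul_mem' c _ h := ⟨Submodule.smul_mem A c h.1, Submodule.smul_mem B c h.2⟩

/-- The data of a smooth projective variety `X` over a number field: its dimension `dim`, its Chow
ring `C` with rational coefficients, the cycles `ch i` of codimension `i`, the cycles `hom0`
homologous to zero, the ample classes of divisors, and the height pairing `ht` of cycles homologous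
to zero of codimensions `i` and `j` with `i + j = dim + 1`, extended by zero to all cycles
homologous to zero. -/
structure Var where
  dim : ℕ
  C : Type u
  [ring : CommRing C]
  [alg : Algebra ℚ C]
  ch : ℕ → Submodule ℚ C
  hom0 : Submodule ℚ C
  ample : Set C
  ht : C → C → ℝ

attribute [instance] Var.ring Var.alg

namespace Var

/-- The cycles of codimension `i` homologous to zero. -/
def triv (X : Var.{u}) (i : ℕ) : Submodule ℚ X.C := X.ch i ⊓ X.hom0

/-- The basic facts about cycles and heights: products of cycles; there are no cycles of codimension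
`> dim`; there are no cycles of codimension zero homologous to zero except zero; the height pairing is
bilinear and symmetric, and the projection formula `(a x, y) = (x, a y)`. -/
structure IsCycles (X : Var.{u}) : Prop where
  one_mem : (1 : X.C) ∈ X.ch 0
  mul_mem : ∀ {i j : ℕ} {x y : X.C}, x ∈ X.ch i → y ∈ X.ch j → x * y ∈ X.ch (i + j)
  mul_hom0 : ∀ {x y : X.C}, y ∈ X.hom0 → x * y ∈ X.hom0
  ample_le : X.ample ⊆ X.ch 1
  ch_top : ∀ {i : ℕ}, X.dim < i → ∀ {x : X.C}, x ∈ X.ch i → x = 0
  triv_zero : ∀ {x : X.C}, x ∈ X.triv 0 → x = 0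
  ht_add : ∀ {x y z : X.C}, x ∈ X.hom0 → y ∈ X.hom0 → z ∈ X.hom0 →
    X.ht (x + y) z = X.ht x z + X.ht y z
  ht_smul : ∀ (t : ℚ) {x y : X.C}, x ∈ X.hom0 → y ∈ X.hom0 → X.ht (t • x) y = t * X.ht x y
  symm : ∀ {x y : X.C}, x ∈ X.hom0 → y ∈ X.hom0 → X.ht x y = X.ht y x
  proj : ∀ (a : X.C) {x y : X.C}, x ∈ X.hom0 → y ∈ X.hom0 → X.ht (a * x) y = X.ht x (a * y)

/-- The data of the product `X × ℙ¹`. Its Chow ring consists of the elements `x + y h` with
`x`, `y` in the Chow ring of `X` and `h ^ 2 = 0` (the ring of dual numbers), `h` the class of a fibre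
of the projection to `ℙ¹`; the class `x + y h` has codimension `i` if `x` has codimension `i` and `y`
has codimension `i - 1`; it is homologous to zero if `x` and `y` are. The ample classes are the
`L + d h` with `L` ample and `d > 0`, and the height pairing is
`(x + y h, x' + y' h) = (x, y') + (y, x')`. -/
noncomputable def line (X : Var.{u}) : Var.{u} where
  dim := X.dim + 1
  C := Dual X.C
  ring := inferInstance
  alg := inferInstance
  ch i := Dual.sub (X.ch i) (shift X.ch i)
  hom0 := Dual.sub X.hom0 X.hom0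
  ample := {z | z.fst ∈ X.ample ∧ ∃ d : ℚ, 0 < d ∧ z.snd = d • (1 : X.C)}
  ht z w := X.ht z.fst w.snd + X.ht z.snd w.fst

/-- The data of the product of `X` and `r` projective lines. -/
noncomputable def lines (X : Var.{u}) : ℕ → Var.{u}
  | 0 => X
  | r + 1 => (lines X r).line

/-- The class `x` of `x + y h`. -/
noncomputable def restr (X : Var.{u}) (z : X.line.C) : X.C := Dual.fst (C := X.C) z

/-- The restriction to `X` of a class on the product of `X` and `r` projective lines. In particular
it is `L` for the ample class `L + d_1 h_1 + ⋯ + d_r h_r`. -/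
noncomputable def base (X : Var.{u}) : ∀ r : ℕ, (X.lines r).C → X.C
  | 0, z => z
  | r + 1, z => base X r ((X.lines r).restr z)

/-- Question 1 for cycles of codimension `i` and `k = dim X + 1 - 2 i`. -/
def Q1 (X : Var.{u}) (i k : ℕ) (L : X.C) : Prop :=
  Set.BijOn (fun x => L ^ k * x) (X.triv i) (X.triv (i + k))

/-- Question 2 for cycles of codimension `i` and `k = dim X + 1 - 2 i`. -/
def Q2 (X : Var.{u}) (i k : ℕ) (L : X.C) : Prop :=
  ∀ x ∈ X.triv i, x ≠ 0 → L ^ (k + 1) * x = 0 → 0 < (-1) ^ i * X.ht x (L ^ k * x)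

/-- Question 1 in the middle: `M : Ch^j(X)^0 → Ch^(j + 1)(X)^0` is bijective (`dim X = 2 j`). -/
def Middle1 (X : Var.{u}) (j : ℕ) (M : X.C) : Prop :=
  Set.BijOn (fun z => M * z) (X.triv j) (X.triv (j + 1))

/-- Question 2 in the middle: `(-1)^j (z, z) > 0` for all `z ≠ 0` in `Ch^j(X)^0` with `M z = 0`
(`dim X = 2 j - 1`). -/
def Middle2 (X : Var.{u}) (j : ℕ) (M : X.C) : Prop :=
  ∀ z ∈ X.triv j, z ≠ 0 → M * z = 0 → 0 < (-1) ^ j * X.ht z z

end Var

end Pool.Agent.H844.Mid
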