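import Pool.Agent.H844.Mid.Step

/-!
# The two questions for the product with one projective line
-/

set_option autoImplicit false

universe u

namespace Pool.Agent.H844.Mid

namespace Var

variable {X : Var.{u}}

lemma q1_iff (hX : X.IsCycles) {L : X.C} (hL : L ∈ X.ch 1) {i k : ℕ} :
    X.Q1 i k L ↔ (∀ x ∈ X.triv i, L ^ k * x = 0 → x = 0) ∧
      ∀ y ∈ X.triv (i + k), ∃ x ∈ X.triv i, L ^ k * x = y := by
  constructor
  · rintro ⟨-, h2, h3⟩
    refine ⟨fun x hx h => h2 hx (zero_mem _) (by simpa using h), fun y hy => ?_⟩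
    obtain ⟨x, hx, hxy⟩ := h3 hy
    exact ⟨x, hx, hxy⟩
  · rintro ⟨h1, h2⟩
    refine ⟨fun x hx => hX.powtriv hL rfl hx, fun x hx y hy h => ?_, fun y hy => ?_⟩
    · have h' : L ^ k * x = L ^ k * y := h
      have := h1 (x - y) (sub_mem hx hy) (by rw [mul_sub, h', sub_self])
      exact sub_eq_zero.1 this
    · obtain ⟨x, hx, hxy⟩ := h2 y hy
      exact ⟨x, hx, hxy⟩

lemma q1_codim_zero (hX : X.IsCycles) {L : X.C} (hL : L ∈ X.ch 1) {k : ℕ} (hk : X.dim < k) :
    X.Q1 0 k L := by
  rw [q1_iff hX hL]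
  refine ⟨fun x hx _ => hX.triv_zero hx, fun y hy => ⟨0, zero_mem _, ?_⟩⟩
  rw [mul_zero, hX.ch_top (by omega) hy.1]

lemma q1_zero (hX : X.IsCycles) {L : X.C} (hL : L ∈ X.ch 1) {i : ℕ} : X.Q1 i 0 L := by
  rw [q1_iff hX hL]
  exact ⟨fun x _ h => by simpa using h, fun y hy => ⟨y, hy, by simp⟩⟩

lemma q2_codim_zero (hX : X.IsCycles) {L : X.C} {k : ℕ} : X.Q2 0 k L :=
  fun _ hx h0 _ => absurd (hX.triv_zero hx) h0

lemma restr_pm {M : X.line.C} (z : X.line.C) (m : ℕ) :
    X.restr (M ^ m * z) = X.restr M ^ m * X.restr z := by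
  rw [restr_mul, restr_pow]

lemma cof_pm {M : X.line.C} {d : ℚ} (hd : X.cof M = d • (1 : X.C)) (z : X.line.C) (m : ℕ) :
    X.cof (M ^ (m + 1) * z) = X.restr M ^ (m + 1) * X.cof z +
      ((m + 1) * d) • (X.restr M ^ m * X.restr z) := by
  rw [cof_mul, restr_pow, cof_pow, hd]
  simp only [Algebra.smul_def, mul_one, map_mul, map_add, map_natCast, map_one]
  push_cast
  ring

/-- Question 1 for the product with a projective line. -/
theorem q1_line (hX : X.IsCycles) {M : X.line.C} (hM : M ∈ X.line.ample) {i m : ℕ}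
    (hi : X.line.dim + 1 = 2 * i + (m + 1)) :
    X.line.Q1 i (m + 1) M ↔ ∀ i' k', X.dim + 1 = 2 * i' + k' → (k' = m + 2 ∨ k' = m) →
      X.Q1 i' k' (X.restr M) := by
  have hM1 := hX.line.ample_le hM
  obtain ⟨hL, d, hd, hcof⟩ := mem_ample.1 hM
  have hL1 := hX.ample_le hL
  rw [dim_line] at hi
  set L := X.restr M with hLdef
  cases i with
  | zero =>
    refine ⟨fun _ i' k' h h' => ?_, fun _ => ?_⟩
    · obtain rfl : i' = 0 := by omega
      exact q1_codim_zero hX hL1 (by omega)
    · exact q1_codim_zero hX.line hM1 (by rw [dim_line]; omega)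
  | succ i =>
    have hc : ((m : ℚ) + 1) * d ≠ 0 := by positivity
    set c : ℚ := (m + 1) * d with hcdef
    have key : (∀ i' k', X.dim + 1 = 2 * i' + k' → (k' = m + 2 ∨ k' = m) → X.Q1 i' k' L) ↔
        (X.Q1 i (m + 2) L ∧ X.Q1 (i + 1) m L) := by
      constructor
      · intro h
        exact ⟨h i (m + 2) (by omega) (Or.inl rfl), h (i + 1) m (by omega) (Or.inr rfl)⟩
      · rintro ⟨h1, h2⟩ i' k' h (rfl | rfl)
        · obtain rfl : i' = i := by omega
          exact h1
        · obtain rfl : i' = i + 1 := by omega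
          exact h2
    rw [key, q1_iff hX.line hM1, q1_iff hX hL1, q1_iff hX hL1]
    constructor
    · rintro ⟨inj, sur⟩
      refine ⟨⟨fun y hy h => ?_, fun a ha => ?_⟩, fun x hx h => ?_, fun b hb => ?_⟩
      · have h1 : X.mk2 (L * y) (-c • y) ∈ X.line.triv (i + 1) := by
          rw [mem_triv_succ]
          refine ⟨?_, Submodule.smul_mem _ _ hy⟩
          have := hX.powtriv hL1 (m := 1) (j := i + 1) rfl hy
          simpa using this
        have h2 : M ^ (m + 1) * X.mk2 (L * y) (-c • y) = 0 := by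
          rw [eq_zero_iff, restr_pm, cof_pm hcof, restr_mk2, cof_mk2, ← hLdef, ← hcdef]
          refine ⟨by rw [← h]; ring, ?_⟩
          rw [mul_smul_comm, ← mul_assoc, ← pow_succ, neg_smul, neg_add_cancel]
        have h3 := (mk2_eq_zero.1 (inj _ h1 h2)).2
        exact (smul_eq_zero.1 h3).resolve_left (neg_ne_zero.2 hc)
      · have h1 : X.mk2 a 0 ∈ X.line.triv (i + 1 + (m + 1)) := by
          rw [show i + 1 + (m + 1) = (i + (m + 1)) + 1 by omega, mem_triv_succ]
          refine ⟨?_, zero_mem _⟩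
          rw [restr_mk2, show i + (m + 1) + 1 = i + (m + 2) by omega]
          exact ha
        obtain ⟨z, hz, hz'⟩ := sur _ h1
        rw [mem_triv_succ] at hz
        have h2 : L ^ (m + 1) * X.restr z = a := by
          rw [← restr_pm, hz', restr_mk2]
        have h3 : L ^ (m + 1) * X.cof z + c • (L ^ m * X.restr z) = 0 := by
          rw [← cof_pm hcof, hz', cof_mk2]
        refine ⟨-c⁻¹ • X.cof z, Submodule.smul_mem _ _ hz.2, ?_⟩
        have h4 : L ^ (m + 2) * X.cof z = -(c • a) := by
          have h5 : L * (L ^ (m + 1) * X.cof z + c • (L ^ m * X.restr z)) = 0 := by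
            rw [h3, mul_zero]
          rw [mul_add, mul_smul_comm, ← mul_assoc, ← mul_assoc, ← pow_succ', ← pow_succ', h2] at h5
          exact eq_neg_of_add_eq_zero_left h5
        rw [mul_smul_comm, h4, neg_smul_neg, smul_smul, inv_mul_cancel₀ hc, one_smul]
      · have h1 : X.mk2 x 0 ∈ X.line.triv (i + 1) := by
          rw [mem_triv_succ]
          exact ⟨hx, zero_mem _⟩
        have h2 : M ^ (m + 1) * X.mk2 x 0 = 0 := by
          rw [eq_zero_iff, restr_pm, cof_pm hcof, restr_mk2, cof_mk2, ← hLdef, ← hcdef]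
          refine ⟨by rw [pow_succ', mul_assoc, h, mul_zero], ?_⟩
          rw [mul_zero, h, smul_zero, add_zero]
        exact (mk2_eq_zero.1 (inj _ h1 h2)).1
      · have h1 : X.mk2 0 b ∈ X.line.triv (i + 1 + (m + 1)) := by
          rw [show i + 1 + (m + 1) = (i + 1 + m) + 1 by omega, mem_triv_succ]
          exact ⟨zero_mem _, hb⟩
        obtain ⟨z, hz, hz'⟩ := sur _ h1
        rw [mem_triv_succ] at hz
        have h3 : L ^ (m + 1) * X.cof z + c • (L ^ m * X.restr z) = b := by
          rw [← cof_pm hcof, hz', cof_mk2]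
        refine ⟨L * X.cof z + c • X.restr z, add_mem ?_ (Submodule.smul_mem _ _ hz.1), ?_⟩
        · have := hX.powtriv hL1 (m := 1) (j := i + 1) rfl hz.2
          simpa using this
        · rw [← h3, mul_add, mul_smul_comm, ← mul_assoc, ← pow_succ]
    · rintro ⟨⟨inj1, sur1⟩, inj2, sur2⟩
      refine ⟨fun z hz h => ?_, fun v hv => ?_⟩
      · rw [mem_triv_succ] at hz
        rw [eq_zero_iff, restr_pm, cof_pm hcof, ← hLdef, ← hcdef] at h
        obtain ⟨h1, h2⟩ := h
        have h3 : L ^ (m + 2) * X.cof z = 0 := by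
          have h5 : L * (L ^ (m + 1) * X.cof z + c • (L ^ m * X.restr z)) = 0 := by
            rw [h2, mul_zero]
          rwa [mul_add, mul_smul_comm, ← mul_assoc, ← mul_assoc, ← pow_succ', ← pow_succ', h1,
            smul_zero, add_zero] at h5
        have h4 : X.cof z = 0 := inj1 _ hz.2 h3
        rw [h4, mul_zero, zero_add] at h2
        have h5 : X.restr z = 0 := inj2 _ hz.1 ((smul_eq_zero.1 h2).resolve_left hc)
        exact ext2 h5 h4
      · rw [show i + 1 + (m + 1) = (i + 1 + m) + 1 by omega, mem_triv_succ] at hv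
        obtain ⟨ha, hb⟩ := hv
        set a := X.restr v
        set b := X.cof v
        have hLb : L * b ∈ X.triv (i + (m + 2)) := by
          have := hX.powtriv hL1 (m := 1) (j := i + (m + 2)) (by omega) hb
          simpa using this
        have ha' : a ∈ X.triv (i + (m + 2)) := by
          rw [show i + (m + 2) = i + 1 + m + 1 by omega]; exact ha
        obtain ⟨y, hy, hy'⟩ := sur1 (L * b - c • a) (sub_mem hLb (Submodule.smul_mem _ _ ha'))
        have hLy : L ^ (m + 1) * y ∈ X.triv (i + 1 + m) :=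
          hX.powtriv hL1 (by omega) hy
        obtain ⟨x, hx, hx'⟩ := sur2 (c⁻¹ • (b - L ^ (m + 1) * y))
          (Submodule.smul_mem _ _ (sub_mem hb hLy))
        refine ⟨X.mk2 x y, mem_triv_succ.2 ⟨hx, hy⟩, ?_⟩
        refine ext2 ?_ ?_
        · rw [restr_pm, restr_mk2, ← hLdef, pow_succ', mul_assoc, hx', mul_smul_comm, mul_sub,
            ← mul_assoc, ← pow_succ', hy', sub_sub_cancel, smul_smul, inv_mul_cancel₀ hc,
            one_smul]
        · rw [cof_pm hcof, restr_mk2, cof_mk2, ← hLdef, ← hcdef, hx', smul_smul,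
            mul_inv_cancel₀ hc, one_smul, add_sub_cancel]

/-- The height of the class attached to a pair of primitive classes. -/
lemma value_succ (hX : X.IsCycles) {M : X.line.C} {d : ℚ}
    (hd : X.cof M = d • (1 : X.C)) {i m : ℕ} {x w : X.C}
    (hx : x ∈ X.triv (i + 1)) (hw : w ∈ X.triv i) (h0 : X.restr M ^ (m + 1) * x = 0) :
    X.line.ht (X.mk2 (x + X.restr M * w) (-((m + 2) * d) • w))
        (M ^ (m + 1) * X.mk2 (x + X.restr M * w) (-((m + 2) * d) • w)) =
      (m + 1) * d * X.ht x (X.restr M ^ m * x) -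
        (m + 3) * d * X.ht w (X.restr M ^ (m + 2) * w) := by
  set L := X.restr M with hLdef
  have e1 : X.restr (M ^ (m + 1) * X.mk2 (x + L * w) (-((m + 2) * d) • w)) = L ^ (m + 2) * w := by
    rw [restr_pm, restr_mk2, ← hLdef, mul_add, h0, zero_add, ← mul_assoc, ← pow_succ]
  have e2 : X.cof (M ^ (m + 1) * X.mk2 (x + L * w) (-((m + 2) * d) • w)) =
      ((m + 1) * d) • (L ^ m * x) - d • (L ^ (m + 1) * w) := by
    rw [cof_pm hd, restr_mk2, cof_mk2, ← hLdef]
    simp only [Algebra.smul_def, map_mul, map_add, map_natCast, map_one, map_neg, map_ofNat]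
    ring
  have hpx : L ^ m * x ∈ X.hom0 := hX.mul_hom0 hx.2
  have hpw : L ^ (m + 1) * w ∈ X.hom0 := hX.mul_hom0 hw.2
  have hLw : L * w ∈ X.hom0 := hX.mul_hom0 hw.2
  have p1 : X.ht x (L ^ (m + 1) * w) = 0 := by
    rw [← hX.proj _ hx.2 hw.2, h0, hX.ht_zero_left hw.2]
  have p2 : X.ht (L * w) (L ^ m * x) = 0 := by
    rw [hX.proj _ hw.2 hpx, ← mul_assoc, ← pow_succ', h0, hX.ht_zero_right hw.2]
  have p3 : X.ht (L * w) (L ^ (m + 1) * w) = X.ht w (L ^ (m + 2) * w) := by
    rw [hX.proj _ hw.2 hpw, ← mul_assoc, ← pow_succ']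
  rw [ht_line, e1, e2, restr_mk2, cof_mk2,
    hX.ht_add hx.2 hLw (sub_mem (Submodule.smul_mem _ _ hpx) (Submodule.smul_mem _ _ hpw)),
    hX.ht_sub_right hx.2 (Submodule.smul_mem _ _ hpx) (Submodule.smul_mem _ _ hpw),
    hX.ht_sub_right hLw (Submodule.smul_mem _ _ hpx) (Submodule.smul_mem _ _ hpw),
    hX.ht_smul_right _ hx.2 hpx, hX.ht_smul_right _ hx.2 hpw, hX.ht_smul_right _ hLw hpx,
    hX.ht_smul_right _ hLw hpw, hX.ht_smul _ hw.2 (hX.mul_hom0 hw.2), p1, p2, p3]
  push_cast
  ring

lemma value_zero (hX : X.IsCycles) {M : X.line.C} {d : ℚ} {i : ℕ} {w : X.C}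
    (hw : w ∈ X.triv i) :
    X.line.ht (X.mk2 (X.restr M * w) (-d • w)) (X.mk2 (X.restr M * w) (-d • w)) =
      -(2 * d * X.ht w (X.restr M * w)) := by
  have hLw : X.restr M * w ∈ X.hom0 := hX.mul_hom0 hw.2
  have p : X.ht (X.restr M * w) w = X.ht w (X.restr M * w) := hX.proj _ hw.2 hw.2
  rw [ht_line, restr_mk2, cof_mk2, hX.ht_smul_right _ hLw hw.2, hX.ht_smul _ hw.2 hLw, p]
  push_cast
  ring

/-- The primitive classes of `X × ℙ¹`. -/
lemma prim_iff (hX : X.IsCycles) {M : X.line.C} (hL1 : X.restr M ∈ X.ch 1) {d : ℚ} (hd0 : 0 < d)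
    (hd : X.cof M = d • (1 : X.C)) {i k : ℕ} {z : X.line.C} (hz : z ∈ X.line.triv (i + 1))
    (h : M ^ (k + 1) * z = 0) :
    ∃ x ∈ X.triv (i + 1), ∃ w ∈ X.triv i, X.restr M ^ k * x = 0 ∧ X.restr M ^ (k + 2) * w = 0 ∧
      z = X.mk2 (x + X.restr M * w) (-((k + 1) * d) • w) := by
  have hc : ((k : ℚ) + 1) * d ≠ 0 := by positivity
  rw [mem_triv_succ] at hz
  rw [eq_zero_iff, restr_pm, cof_pm hd] at h
  set L := X.restr M with hLdef
  set c : ℚ := (k + 1) * d with hcdef
  obtain ⟨h1, h2⟩ := h
  have h3 : L ^ (k + 1) * X.cof z = -(c • (L ^ k * X.restr z)) := eq_neg_of_add_eq_zero_left h2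
  have hw : -c⁻¹ • X.cof z ∈ X.triv i := Submodule.smul_mem _ _ hz.2
  have hLw : L * (-c⁻¹ • X.cof z) ∈ X.triv (i + 1) := by
    have := hX.powtriv hL1 (m := 1) (j := i + 1) rfl hw
    simpa using this
  refine ⟨X.restr z - L * (-c⁻¹ • X.cof z), sub_mem hz.1 hLw, -c⁻¹ • X.cof z, hw, ?_, ?_, ?_⟩
  · rw [mul_sub, ← mul_assoc, ← pow_succ, mul_smul_comm, h3, neg_smul_neg, smul_smul,
      inv_mul_cancel₀ hc, one_smul, sub_self]
  · rw [pow_succ', mul_assoc, mul_smul_comm, h3, neg_smul_neg, smul_smul,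
      inv_mul_cancel₀ hc, one_smul, ← mul_assoc, ← pow_succ', h1]
  · refine ext2 ?_ ?_
    · rw [restr_mk2, sub_add_cancel]
    · rw [cof_mk2, smul_smul, neg_mul_neg, mul_inv_cancel₀ hc, one_smul]

/-- Question 2 for the product with a projective line. -/
theorem q2_line (hX : X.IsCycles) {M : X.line.C} (hM : M ∈ X.line.ample) {i k : ℕ}
    (hi : X.line.dim + 1 = 2 * i + k) :
    X.line.Q2 i k M ↔ ∀ i' k', X.dim + 1 = 2 * i' + k' → (k' = k + 1 ∨ k' + 1 = k) →
      X.Q2 i' k' (X.restr M) := by
  obtain ⟨hL, d, hd, hcof⟩ := mem_ample.1 hM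
  have hL1 := hX.ample_le hL
  rw [dim_line] at hi
  cases i with
  | zero =>
    refine ⟨fun _ i' k' h h' => ?_, fun _ => q2_codim_zero hX.line⟩
    obtain rfl : i' = 0 := by omega
    exact q2_codim_zero hX
  | succ i =>
    have hdR : (0 : ℝ) < d := by exact_mod_cast hd
    cases k with
    | zero =>
      have key : (∀ i' k', X.dim + 1 = 2 * i' + k' → (k' = 0 + 1 ∨ k' + 1 = 0) →
          X.Q2 i' k' (X.restr M)) ↔ X.Q2 i 1 (X.restr M) := by
        constructor
        · intro h
          exact h i 1 (by omega) (Or.inl rfl)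
        · rintro h1 i' k' h (rfl | h')
          · obtain rfl : i' = i := by omega
            exact h1
          · omega
      rw [key]
      constructor
      · intro h w hw hw0 hprim
        have hLw : X.restr M * w ∈ X.triv (i + 1) := by
          have := hX.powtriv hL1 (m := 1) (j := i + 1) rfl hw
          simpa using this
        have h1 := h (X.mk2 (X.restr M * w) (-d • w))
          (mem_triv_succ.2 ⟨hLw, Submodule.smul_mem _ _ hw⟩)
          (fun h0 => hw0 ((smul_eq_zero.1 (mk2_eq_zero.1 h0).2).resolve_left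
            (neg_ne_zero.2 hd.ne'))) (by
            rw [eq_zero_iff, restr_pm, cof_pm hcof, restr_mk2, cof_mk2]
            refine ⟨by rw [← hprim]; ring, ?_⟩
            simp only [Algebra.smul_def, map_mul, map_add, map_one, map_neg,
              Nat.cast_zero, map_zero]
            ring)
        rw [pow_zero, one_mul, value_zero hX hw] at h1
        rw [pow_one]
        have h2 : (-1 : ℝ) ^ (i + 1) * -(2 * d * X.ht w (X.restr M * w)) =
            (2 * d) * ((-1) ^ i * X.ht w (X.restr M * w)) := by ring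
        rw [h2] at h1
        exact (pos_iff_pos_of_mul_pos h1).1 (by positivity)
      · intro h z hz hz0 hprim
        obtain ⟨x, hx, w, hw, hx0, hw0, rfl⟩ := prim_iff hX hL1 hd hcof hz hprim
        rw [pow_zero, one_mul] at hx0
        subst hx0
        have hw' : w ≠ 0 := by
          rintro rfl
          exact hz0 (mk2_eq_zero.2 ⟨by simp, by simp⟩)
        have h1 := h w hw hw' (by simpa using hw0)
        rw [pow_one] at h1
        rw [pow_zero, one_mul, zero_add]
        have e : -(((0 : ℕ) : ℚ) + 1) * d = -d := by push_cast; ring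
        have e' : -((((0 : ℕ) : ℚ) + 1) * d) = -d := by push_cast; ring
        rw [e', value_zero hX hw]
        have h2 : (-1 : ℝ) ^ (i + 1) * -(2 * d * X.ht w (X.restr M * w)) =
            (2 * d) * ((-1) ^ i * X.ht w (X.restr M * w)) := by ring
        rw [h2]
        positivity
    | succ m =>
      have key : (∀ i' k', X.dim + 1 = 2 * i' + k' → (k' = m + 1 + 1 ∨ k' + 1 = m + 1) →
          X.Q2 i' k' (X.restr M)) ↔ X.Q2 i (m + 2) (X.restr M) ∧ X.Q2 (i + 1) m (X.restr M) := by
        constructor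
        · intro h
          exact ⟨h i (m + 2) (by omega) (Or.inl rfl), h (i + 1) m (by omega) (Or.inr rfl)⟩
        · rintro ⟨h1, h2⟩ i' k' h (rfl | h')
          · obtain rfl : i' = i := by omega
            exact h1
          · obtain rfl : k' = m := by omega
            obtain rfl : i' = i + 1 := by omega
            exact h2
      rw [key]
      have e' : -((((m + 1 : ℕ) : ℚ) + 1) * d) = -((m + 2) * d) := by push_cast; ring
      constructor
      · intro h
        constructor
        · intro w hw hw0 hprim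
          have hLw : X.restr M * w ∈ X.triv (i + 1) := by
            have := hX.powtriv hL1 (m := 1) (j := i + 1) rfl hw
            simpa using this
          have hc : -(((m : ℚ) + 2) * d) ≠ 0 := neg_ne_zero.2 (by positivity)
          have h1 := h (X.mk2 (0 + X.restr M * w) (-((m + 2) * d) • w))
            (mem_triv_succ.2 ⟨by rw [restr_mk2, zero_add]; exact hLw, Submodule.smul_mem _ _ hw⟩)
            (fun h0 => hw0 ((smul_eq_zero.1 (mk2_eq_zero.1 h0).2).resolve_left hc)) (by
              rw [eq_zero_iff, restr_pm, cof_pm hcof, restr_mk2, cof_mk2, zero_add]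
              refine ⟨by rw [← mul_assoc, ← pow_succ]; exact hprim, ?_⟩
              simp only [Algebra.smul_def, map_mul, map_add, map_natCast, map_one, map_neg,
                map_ofNat, Nat.cast_add, Nat.cast_one]
              ring)
          rw [value_succ hX hcof (zero_mem _) hw (by simp)] at h1
          have h2 : (-1 : ℝ) ^ (i + 1) * ((m + 1) * d * X.ht 0 (X.restr M ^ m * 0) -
              (m + 3) * d * X.ht w (X.restr M ^ (m + 2) * w)) =
              ((m + 3) * d) * ((-1) ^ i * X.ht w (X.restr M ^ (m + 2) * w)) := by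
            rw [mul_zero, hX.ht_zero_left (zero_mem _)]; ring
          rw [h2] at h1
          exact (pos_iff_pos_of_mul_pos h1).1 (by positivity)
        · intro x hx hx0 hprim
          have h1 := h (X.mk2 (x + X.restr M * 0) (-((m + 2) * d) • 0))
            (mem_triv_succ.2 ⟨by rw [restr_mk2, mul_zero, add_zero]; exact hx,
              by rw [cof_mk2, smul_zero]; exact zero_mem _⟩)
            (fun h0 => hx0 (by simpa using (mk2_eq_zero.1 h0).1)) (by
              rw [eq_zero_iff, restr_pm, cof_pm hcof, restr_mk2, cof_mk2, mul_zero, add_zero,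
                smul_zero, mul_zero, zero_add]
              exact ⟨by rw [pow_succ', mul_assoc, hprim, mul_zero], by rw [hprim, smul_zero]⟩)
          rw [value_succ hX hcof hx (zero_mem _) hprim] at h1
          have h2 : (-1 : ℝ) ^ (i + 1) * ((m + 1) * d * X.ht x (X.restr M ^ m * x) -
              (m + 3) * d * X.ht 0 (X.restr M ^ (m + 2) * 0)) =
              ((m + 1) * d) * ((-1) ^ (i + 1) * X.ht x (X.restr M ^ m * x)) := by
            rw [mul_zero, hX.ht_zero_left (zero_mem _)]; ring
          rw [h2] at h1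
          exact (pos_iff_pos_of_mul_pos h1).1 (by positivity)
      · rintro ⟨q1, q2⟩ z hz hz0 hprim
        obtain ⟨x, hx, w, hw, hx0, hw0, rfl⟩ := prim_iff hX hL1 hd hcof hz hprim
        rw [e'] at hz0 ⊢
        rw [value_succ hX hcof hx hw hx0]
        have h2 : (-1 : ℝ) ^ (i + 1) * ((m + 1) * d * X.ht x (X.restr M ^ m * x) -
            (m + 3) * d * X.ht w (X.restr M ^ (m + 2) * w)) =
            ((m + 1) * d) * ((-1) ^ (i + 1) * X.ht x (X.restr M ^ m * x)) +
            ((m + 3) * d) * ((-1) ^ i * X.ht w (X.restr M ^ (m + 2) * w)) := by ring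
        rw [h2]
        have hxge : 0 ≤ (-1) ^ (i + 1) * X.ht x (X.restr M ^ m * x) := by
          by_cases hx' : x = 0
          · rw [hx', mul_zero, hX.ht_zero_left (zero_mem _), mul_zero]
          · exact (q2 x hx hx' hx0).le
        have hwge : 0 ≤ (-1) ^ i * X.ht w (X.restr M ^ (m + 2) * w) := by
          by_cases hw' : w = 0
          · rw [hw', mul_zero, hX.ht_zero_left (zero_mem _), mul_zero]
          · exact (q1 w hw hw' hw0).le
        by_cases hx' : x = 0
        · have hw' : w ≠ 0 := by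
            rintro rfl
            exact hz0 (mk2_eq_zero.2 ⟨by simp [hx'], by simp⟩)
          have := q1 w hw hw' hw0
          positivity
        · have := q2 x hx hx' hx0
          positivity

end Var

end Pool.Agent.H844.Mid
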