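import Pool.Agent.H844.Mid.Line

/-!
# Products with several projective lines
-/

set_option autoImplicit false

universe u

namespace Pool.Agent.H844.Mid

namespace Var

variable {X : Var.{u}}

lemma dim_lines (X : Var.{u}) (r : ℕ) : (X.lines r).dim = X.dim + r := by
  induction r with
  | zero => rfl
  | succ r ih => rw [← add_assoc, ← ih]; rfl

lemma IsCycles.lines (hX : X.IsCycles) (r : ℕ) : (X.lines r).IsCycles := by
  induction r with
  | zero => exact hX
  | succ r ih => exact ih.line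

lemma base_mem {r : ℕ} {M : (X.lines r).C} (hM : M ∈ (X.lines r).ample) :
    X.base r M ∈ X.ample := by
  induction r with
  | zero => exact hM
  | succ r ih => exact ih hM.1

lemma exists_base {L : X.C} (hL : L ∈ X.ample) (r : ℕ) :
    ∃ M ∈ (X.lines r).ample, X.base r M = L := by
  induction r with
  | zero => exact ⟨L, hL, rfl⟩
  | succ r ih =>
    obtain ⟨M, hM, hML⟩ := ih
    exact ⟨(X.lines r).mk2 M 1, ⟨hM, 1, one_pos, (one_smul _ _).symm⟩, hML⟩

theorem q1_lines (hX : X.IsCycles) (r : ℕ) {M : (X.lines r).C} (hM : M ∈ (X.lines r).ample)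
    {i k : ℕ} (hi : X.dim + r + 1 = 2 * i + k) (hk : 1 ≤ k) :
    (X.lines r).Q1 i k M ↔ ∀ i' k', X.dim + 1 = 2 * i' + k' → k ≤ k' + r → k' ≤ k + r →
      X.Q1 i' k' (X.base r M) := by
  induction r generalizing i k with
  | zero =>
    constructor
    · intro h i' k' h1 h2 h3
      obtain rfl : k' = k := by omega
      obtain rfl : i' = i := by omega
      exact h
    · intro h
      exact h i k (by omega) (by omega) (by omega)
  | succ r ih =>
    obtain ⟨m, rfl⟩ : ∃ m, k = m + 1 := ⟨k - 1, by omega⟩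
    have hB := hX.ample_le (base_mem hM)
    have hM' : (X.lines r).restr M ∈ (X.lines r).ample := hM.1
    have h1 := q1_line (hX.lines r) (M := M) hM (i := i) (m := m)
      (by rw [dim_line, dim_lines]; omega)
    change (X.lines r).line.Q1 i (m + 1) M ↔ _
    rw [h1]
    change _ ↔ ∀ i' k', X.dim + 1 = 2 * i' + k' → m + 1 ≤ k' + (r + 1) → k' ≤ m + 1 + (r + 1) →
      X.Q1 i' k' (X.base r ((X.lines r).restr M))
    constructor
    · intro h i' k' h2 h3 h4
      by_cases h5 : 1 ≤ m ∧ k' ≤ m + r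
      · exact (ih hM' (i := i) (k := m) (by omega) h5.1).1
          (h i m (by rw [dim_lines]; omega) (Or.inr rfl)) i' k' h2 (by omega) h5.2
      · by_cases h6 : k' = 0
        · subst h6
          exact q1_zero hX hB
        · exact (ih hM' (i := i - 1) (k := m + 2) (by omega) (by omega)).1
            (h (i - 1) (m + 2) (by rw [dim_lines]; omega) (Or.inl rfl)) i' k' h2 (by omega)
            (by omega)
    · intro h i1 k1 h2 h3
      rw [dim_lines] at h2
      by_cases h4 : k1 = 0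
      · subst h4
        exact q1_zero (hX.lines r) ((hX.lines r).ample_le hM')
      · exact (ih hM' h2 (by omega)).2 fun i' k' h5 h6 h7 => h i' k' h5 (by omega) (by omega)

theorem q2_lines (hX : X.IsCycles) (r : ℕ) {M : (X.lines r).C} (hM : M ∈ (X.lines r).ample)
    {i k : ℕ} (hi : X.dim + r + 1 = 2 * i + k) :
    (X.lines r).Q2 i k M ↔ ∀ i' k', X.dim + 1 = 2 * i' + k' → k ≤ k' + r → k' ≤ k + r →
      X.Q2 i' k' (X.base r M) := by
  induction r generalizing i k with
  | zero =>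
    constructor
    · intro h i' k' h1 h2 h3
      obtain rfl : k' = k := by omega
      obtain rfl : i' = i := by omega
      exact h
    · intro h
      exact h i k (by omega) (by omega) (by omega)
  | succ r ih =>
    have hM' : (X.lines r).restr M ∈ (X.lines r).ample := hM.1
    have h1 := q2_line (hX.lines r) (M := M) hM (i := i) (k := k)
      (by rw [dim_line, dim_lines]; omega)
    change (X.lines r).line.Q2 i k M ↔ _
    rw [h1]
    change _ ↔ ∀ i' k', X.dim + 1 = 2 * i' + k' → k ≤ k' + (r + 1) → k' ≤ k + (r + 1) →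
      X.Q2 i' k' (X.base r ((X.lines r).restr M))
    constructor
    · intro h i' k' h2 h3 h4
      by_cases h5 : 1 ≤ k ∧ k' + 1 ≤ k + r
      · obtain ⟨m, rfl⟩ : ∃ m, k = m + 1 := ⟨k - 1, by omega⟩
        exact (ih hM' (i := i) (k := m) (by omega)).1
          (h i m (by rw [dim_lines]; omega) (Or.inr rfl)) i' k' h2 (by omega) (by omega)
      · exact (ih hM' (i := i - 1) (k := k + 1) (by omega)).1
          (h (i - 1) (k + 1) (by rw [dim_lines]; omega) (Or.inl rfl)) i' k' h2 (by omega)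
          (by omega)
    · intro h i1 k1 h2 h3
      rw [dim_lines] at h2
      exact (ih hM' h2).2 fun i' k' h5 h6 h7 => h i' k' h5 (by omega) (by omega)

lemma q2_mid {j : ℕ} {M : X.C} : X.Q2 j 0 M ↔ X.Middle2 j M := by
  simp only [Q2, Middle2, zero_add, pow_one, pow_zero, one_mul]

lemma q1_mid {j : ℕ} {M : X.C} : X.Q1 j 1 M ↔ X.Middle1 j M := by
  simp only [Q1, Middle1, pow_one]

theorem q1_all (hX : X.IsCycles) {r : ℕ} {M : (X.lines r).C} (hM : M ∈ (X.lines r).ample)
    {j : ℕ} (hj : X.dim + r = 2 * j) (hr : X.dim ≤ r + 2) :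
    (X.lines r).Middle1 j M ↔ ∀ i k, X.dim + 1 = 2 * i + k → X.Q1 i k (X.base r M) := by
  rw [← q1_mid, q1_lines hX r hM (by omega) le_rfl]
  constructor
  · intro h i k hik
    cases i with
    | zero => exact q1_codim_zero hX (hX.ample_le (base_mem hM)) (by omega)
    | succ i =>
      by_cases hk : k = 0
      · subst hk
        exact q1_zero hX (hX.ample_le (base_mem hM))
      · exact h _ _ hik (by omega) (by omega)
  · intro h i k hik _ _
    exact h i k hik

theorem q2_all (hX : X.IsCycles) {r : ℕ} {M : (X.lines r).C} (hM : M ∈ (X.lines r).ample)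
    {j : ℕ} (hj : X.dim + r + 1 = 2 * j) (hr : X.dim ≤ r + 1) :
    (X.lines r).Middle2 j M ↔ ∀ i k, X.dim + 1 = 2 * i + k → X.Q2 i k (X.base r M) := by
  rw [← q2_mid, q2_lines hX r hM (by omega)]
  constructor
  · intro h i k hik
    cases i with
    | zero => exact q2_codim_zero hX
    | succ i => exact h _ _ hik (by omega) (by omega)
  · intro h i k hik _ _
    exact h i k hik

lemma lines_mem {𝒱 : Set Var.{u}} (h𝒱 : ∀ X ∈ 𝒱, X.line ∈ 𝒱) (hX : X ∈ 𝒱) (r : ℕ) :
    X.lines r ∈ 𝒱 := by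
  induction r with
  | zero => exact hX
  | succ r ih => exact h𝒱 _ ih

theorem q1_class {𝒱 : Set Var.{u}} (hc : ∀ X ∈ 𝒱, X.IsCycles) (h𝒱 : ∀ X ∈ 𝒱, X.line ∈ 𝒱)
    {J : Set ℕ} (hJ : ∀ N, ∃ j ∈ J, N ≤ j) :
    (∀ X ∈ 𝒱, ∀ L ∈ X.ample, ∀ i k, X.dim + 1 = 2 * i + k → X.Q1 i k L) ↔
      ∀ X ∈ 𝒱, ∀ j ∈ J, X.dim = 2 * j → ∀ M ∈ X.ample, X.Middle1 j M := by
  constructor
  · intro h X hX j _ hj M hM
    exact q1_mid.1 (h X hX M hM j 1 (by omega))
  · intro h X hX L hL
    obtain ⟨j, hj, hXj⟩ := hJ X.dim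
    obtain ⟨M, hM, rfl⟩ := exists_base hL (2 * j - X.dim)
    exact (q1_all (hc X hX) hM (j := j) (by omega) (by omega)).1
      (h _ (lines_mem h𝒱 hX _) j hj (by rw [dim_lines]; omega) M hM)

theorem q2_class {𝒱 : Set Var.{u}} (hc : ∀ X ∈ 𝒱, X.IsCycles) (h𝒱 : ∀ X ∈ 𝒱, X.line ∈ 𝒱)
    {J : Set ℕ} (hJ : ∀ N, ∃ j ∈ J, N ≤ j) :
    (∀ X ∈ 𝒱, ∀ L ∈ X.ample, ∀ i k, X.dim + 1 = 2 * i + k → X.Q2 i k L) ↔
      ∀ X ∈ 𝒱, ∀ j ∈ J, X.dim + 1 = 2 * j → ∀ M ∈ X.ample, X.Middle2 j M := by
  constructor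
  · intro h X hX j _ hj M hM
    exact q2_mid.1 (h X hX M hM j 0 (by omega))
  · intro h X hX L hL
    obtain ⟨j, hj, hXj⟩ := hJ (X.dim + 1)
    obtain ⟨M, hM, rfl⟩ := exists_base hL (2 * j - (X.dim + 1))
    exact (q2_all (hc X hX) hM (j := j) (by omega) (by omega)).1
      (h _ (lines_mem h𝒱 hX _) j hj (by rw [dim_lines]; omega) M hM)

end Var

end Pool.Agent.H844.Mid
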