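import Pool.Agent.H844.Mid.Defs

/-!
# The product with one projective line
-/

set_option autoImplicit false

universe u

namespace Pool.Agent.H844.Mid

namespace Var

variable {X : Var.{u}}

/-- The coefficient of `h`. -/
noncomputable def cof (X : Var.{u}) (z : X.line.C) : X.C := Dual.snd (C := X.C) z

/-- `x + y h`. -/
noncomputable def mk2 (X : Var.{u}) (x y : X.C) : X.line.C := ((x, y) : TrivSqZeroExt X.C X.C)

@[simp] lemma restr_mk2 (x y : X.C) : X.restr (X.mk2 x y) = x := rfl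
@[simp] lemma cof_mk2 (x y : X.C) : X.cof (X.mk2 x y) = y := rfl

lemma ext2 {z w : X.line.C} (h : X.restr z = X.restr w) (h' : X.cof z = X.cof w) : z = w :=
  TrivSqZeroExt.ext h h'

@[simp] lemma restr_zero : X.restr (0 : X.line.C) = 0 := rfl
@[simp] lemma cof_zero : X.cof (0 : X.line.C) = 0 := rfl

lemma mk2_eq_zero {x y : X.C} : X.mk2 x y = 0 ↔ x = 0 ∧ y = 0 :=
  ⟨fun h => ⟨by simpa using congrArg X.restr h, by simpa using congrArg X.cof h⟩,
    fun h => ext2 (by simp [h.1]) (by simp [h.2])⟩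

lemma eq_zero_iff {z : X.line.C} : z = 0 ↔ X.restr z = 0 ∧ X.cof z = 0 :=
  ⟨fun h => by simp [h], fun h => ext2 h.1 h.2⟩

lemma restr_mul (z w : X.line.C) : X.restr (z * w) = X.restr z * X.restr w :=
  TrivSqZeroExt.fst_mul (R := X.C) (M := X.C) z w

lemma cof_mul (z w : X.line.C) :
    X.cof (z * w) = X.restr z * X.cof w + X.restr w * X.cof z := by
  have h := TrivSqZeroExt.snd_mul (R := X.C) (M := X.C) z w
  simp only [smul_eq_mul, op_smul_eq_smul] at h
  exact h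

lemma restr_pow (z : X.line.C) (m : ℕ) : X.restr (z ^ m) = X.restr z ^ m := by
  induction m with
  | zero => simp only [pow_zero]; rfl
  | succ m ih => rw [pow_succ, pow_succ, restr_mul, ih]

lemma cof_pow (z : X.line.C) (m : ℕ) :
    X.cof (z ^ (m + 1)) = (m + 1 : ℕ) * X.restr z ^ m * X.cof z := by
  induction m with
  | zero => simp
  | succ m ih =>
    rw [pow_succ, cof_mul, ih, restr_pow]
    push_cast
    ring

lemma mem_triv {i : ℕ} {z : X.line.C} :
    z ∈ X.line.triv i ↔ X.restr z ∈ X.triv i ∧ X.cof z ∈ shift X.triv i := by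
  have h : z ∈ X.line.triv i ↔ (X.restr z ∈ X.ch i ∧ X.cof z ∈ shift X.ch i) ∧
      X.restr z ∈ X.hom0 ∧ X.cof z ∈ X.hom0 := Iff.rfl
  rw [h]
  cases i with
  | zero =>
    simp only [shift, Submodule.mem_bot, triv, Submodule.mem_inf]
    constructor
    · rintro ⟨⟨h1, h2⟩, h3, h4⟩
      exact ⟨⟨h1, h3⟩, h2⟩
    · rintro ⟨⟨h1, h3⟩, h2⟩
      exact ⟨⟨h1, h2⟩, h3, by rw [h2]; exact zero_mem _⟩
  | succ i =>
    simp only [shift, triv, Submodule.mem_inf]
    tauto

lemma mem_triv_zero {z : X.line.C} :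
    z ∈ X.line.triv 0 ↔ X.restr z ∈ X.triv 0 ∧ X.cof z = 0 := by
  rw [mem_triv]; simp [shift]

lemma mem_triv_succ {i : ℕ} {z : X.line.C} :
    z ∈ X.line.triv (i + 1) ↔ X.restr z ∈ X.triv (i + 1) ∧ X.cof z ∈ X.triv i := by
  rw [mem_triv]; simp [shift]

lemma mem_ch {i : ℕ} {z : X.line.C} :
    z ∈ X.line.ch i ↔ X.restr z ∈ X.ch i ∧ X.cof z ∈ shift X.ch i := Iff.rfl

lemma ht_line (z w : X.line.C) :
    X.line.ht z w = X.ht (X.restr z) (X.cof w) + X.ht (X.cof z) (X.restr w) := rfl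

lemma mem_ample {M : X.line.C} :
    M ∈ X.line.ample ↔ X.restr M ∈ X.ample ∧ ∃ d : ℚ, 0 < d ∧ X.cof M = d • (1 : X.C) := Iff.rfl

lemma dim_line : X.line.dim = X.dim + 1 := rfl

lemma mem_hom0 {z : X.line.C} : z ∈ X.line.hom0 ↔ X.restr z ∈ X.hom0 ∧ X.cof z ∈ X.hom0 := Iff.rfl

lemma IsCycles.ht_add_right (hX : X.IsCycles) {x y z : X.C} (hx : x ∈ X.hom0) (hy : y ∈ X.hom0)
    (hz : z ∈ X.hom0) : X.ht x (y + z) = X.ht x y + X.ht x z := by
  rw [hX.symm hx (add_mem hy hz), hX.ht_add hy hz hx, hX.symm hy hx, hX.symm hz hx]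

lemma IsCycles.ht_smul_right (hX : X.IsCycles) (t : ℚ) {x y : X.C} (hx : x ∈ X.hom0)
    (hy : y ∈ X.hom0) : X.ht x (t • y) = t * X.ht x y := by
  rw [hX.symm hx (Submodule.smul_mem _ _ hy), hX.ht_smul t hy hx, hX.symm hy hx]

lemma IsCycles.ht_zero_left (hX : X.IsCycles) {y : X.C} (hy : y ∈ X.hom0) : X.ht 0 y = 0 := by
  have h := hX.ht_smul 0 (x := 0) (zero_mem _) hy
  rwa [zero_smul, Rat.cast_zero, zero_mul] at h

lemma IsCycles.ht_zero_right (hX : X.IsCycles) {x : X.C} (hx : x ∈ X.hom0) : X.ht x 0 = 0 := by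
  rw [hX.symm hx (zero_mem _), hX.ht_zero_left hx]

lemma IsCycles.ht_sub_right (hX : X.IsCycles) {x y z : X.C} (hx : x ∈ X.hom0) (hy : y ∈ X.hom0)
    (hz : z ∈ X.hom0) : X.ht x (y - z) = X.ht x y - X.ht x z := by
  have h : y - z = y + (-1 : ℚ) • z := by simp [sub_eq_add_neg]
  rw [h, hX.ht_add_right hx hy (Submodule.smul_mem _ _ hz), hX.ht_smul_right _ hx hz]
  push_cast
  ring

lemma IsCycles.pow_mem (hX : X.IsCycles) {L : X.C} (hL : L ∈ X.ch 1) (m : ℕ) :
    L ^ m ∈ X.ch m := by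
  induction m with
  | zero => simpa using hX.one_mem
  | succ m ih => rw [pow_succ]; exact hX.mul_mem ih hL

lemma IsCycles.mul_triv (hX : X.IsCycles) {i j : ℕ} {x y : X.C} (hx : x ∈ X.ch i)
    (hy : y ∈ X.triv j) : x * y ∈ X.triv (i + j) :=
  ⟨hX.mul_mem hx hy.1, hX.mul_hom0 hy.2⟩

lemma IsCycles.powtriv (hX : X.IsCycles) {L : X.C} (hL : L ∈ X.ch 1) {m i j : ℕ} (h : i + m = j)
    {x : X.C} (hx : x ∈ X.triv i) : L ^ m * x ∈ X.triv j := by
  have := hX.mul_triv (hX.pow_mem hL m) hx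
  rwa [add_comm m i, h] at this

/-- The basic facts hold for `X × ℙ¹` if they hold for `X`. -/
theorem IsCycles.line (hX : X.IsCycles) : X.line.IsCycles where
  one_mem := by
    rw [mem_ch]
    refine ⟨hX.one_mem, ?_⟩
    change (0 : X.C) ∈ shift X.ch 0
    exact zero_mem _
  mul_mem {i j x y} hx hy := by
    rw [mem_ch] at hx hy ⊢
    rw [restr_mul, cof_mul]
    refine ⟨hX.mul_mem hx.1 hy.1, ?_⟩
    obtain ⟨hx1, hx2⟩ := hx
    obtain ⟨hy1, hy2⟩ := hy
    cases i with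
    | zero =>
      have h0 : X.cof x = 0 := hx2
      rw [h0, mul_zero, add_zero]
      cases j with
      | zero =>
        have h1 : X.cof y = 0 := hy2
        rw [h1, mul_zero]; exact zero_mem _
      | succ j =>
        have := hX.mul_mem hx1 (show X.cof y ∈ X.ch j from hy2)
        rw [show 0 + (j + 1) = (0 + j) + 1 by omega]
        exact this
    | succ i =>
      have h1 := hX.mul_mem hy1 (show X.cof x ∈ X.ch i from hx2)
      cases j with
      | zero =>
        have h0 : X.cof y = 0 := hy2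
        rw [h0, mul_zero, zero_add, show i + 1 + 0 = (0 + i) + 1 by omega]
        exact h1
      | succ j =>
        have h2 := hX.mul_mem hx1 (show X.cof y ∈ X.ch j from hy2)
        rw [show j + 1 + i = i + 1 + j by omega] at h1
        rw [show i + 1 + (j + 1) = (i + 1 + j) + 1 by omega]
        exact add_mem (show _ ∈ X.ch (i + 1 + j) from h2) h1
  mul_hom0 {x y} hy := by
    have hy' : X.restr y ∈ X.hom0 ∧ X.cof y ∈ X.hom0 := hy
    change X.restr (x * y) ∈ X.hom0 ∧ X.cof (x * y) ∈ X.hom0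
    rw [restr_mul, cof_mul, mul_comm (X.restr y)]
    exact ⟨hX.mul_hom0 hy'.1, add_mem (hX.mul_hom0 hy'.2) (hX.mul_hom0 hy'.1)⟩
  ample_le := by
    rintro M ⟨h1, d, hd, h2⟩
    refine ⟨hX.ample_le h1, ?_⟩
    change X.cof M ∈ X.ch 0
    have h3 : X.cof M = d • (1 : X.C) := h2
    rw [h3]
    exact Submodule.smul_mem _ _ hX.one_mem
  ch_top {i} hi {x} hx := by
    rw [dim_line] at hi
    rw [mem_ch] at hx
    obtain ⟨i, rfl⟩ : ∃ i', i = i' + 1 := ⟨i - 1, by omega⟩
    exact ext2 (hX.ch_top (by omega) hx.1) (hX.ch_top (i := i) (by omega) hx.2)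
  triv_zero {x} hx := by
    rw [mem_triv_zero] at hx
    exact ext2 (hX.triv_zero hx.1) hx.2
  ht_add {x y z} hx hy hz := by
    rw [mem_hom0] at hx hy hz
    rw [ht_line, ht_line, ht_line]
    change X.ht (X.restr x + X.restr y) (X.cof z) + X.ht (X.cof x + X.cof y) (X.restr z) = _
    rw [hX.ht_add hx.1 hy.1 hz.2, hX.ht_add hx.2 hy.2 hz.1]
    ring
  ht_smul t {x y} hx hy := by
    rw [mem_hom0] at hx hy
    rw [ht_line, ht_line]
    change X.ht (t • X.restr x) (X.cof y) + X.ht (t • X.cof x) (X.restr y) = _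
    rw [hX.ht_smul t hx.1 hy.2, hX.ht_smul t hx.2 hy.1]
    ring
  symm {x y} hx hy := by
    rw [mem_hom0] at hx hy
    rw [ht_line, ht_line, hX.symm hx.1 hy.2, hX.symm hx.2 hy.1, add_comm]
  proj a {x y} hx hy := by
    rw [mem_hom0] at hx hy
    rw [ht_line, ht_line, restr_mul, restr_mul, cof_mul, cof_mul,
      hX.ht_add (hX.mul_hom0 hx.2) (by rw [mul_comm]; exact hX.mul_hom0 hx.1) hy.1,
      hX.ht_add_right hx.1 (hX.mul_hom0 hy.2) (by rw [mul_comm]; exact hX.mul_hom0 hy.1),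
      hX.proj _ hx.1 hy.2, hX.proj _ hx.2 hy.1, mul_comm (X.restr x), mul_comm (X.restr y),
      hX.proj _ hx.1 hy.1]
    ring

end Var

end Pool.Agent.H844.Mid
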